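import Pool.Agent.Lib.MP_478959_ag.Fin2

/-!
Problem MP_478959_ag: the bundle `E_H ⊗ E_H` on a smooth plane curve of degree at least 4 has
exactly nine independent sections, so that no smooth plane septic has third Clifford index `8/3`.
-/

set_option autoImplicit false

namespace Pool.Agent.Results.MP_478959_ag.PlaneSeptics

open Pool.Agent.Lib.MP_478959_ag MvPolynomial

/-- Let `C = {F = 0}` be a smooth plane curve of degree `δ ≥ 4` over `ℂ`.  Then the sections of
`H = 𝒪_C(1)` are exactly the linear forms, and `h⁰(C, E_H ⊗ E_H) = 9`, where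
`E_H = D_H^*`, `D_H = ker(H⁰(H) ⊗ 𝒪 → H)`. -/
theorem result (F : R) (δ : ℕ) (hδ : 4 ≤ δ) (hF : IsSmoothCurve F δ) (K : Type) [Field K]
    [Algebra ℂ K] [Algebra R K] [IsScalarTower ℂ R K] (hK : IsModel F K) :
    (∀ f : K, IsSec F K 1 f ↔ ∃ c : R, c.IsHomogeneous 1 ∧ algebraMap R K c = f) ∧
    Module.finrank ℂ (Sections F K) = 9 :=
  finThm2 F δ hδ hF K hK

end Pool.Agent.Results.MP_478959_ag.PlaneSeptics
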